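import Pool.Agent.helper34.AC.Spec4

/-!
# Project ac: (MP_e0bd72_co), module TWS
-/

set_option autoImplicit false

open Filter Topology

namespace Pool.Agent.helper34.AC

/-- the sums over the blocks of a vertex -/
theorem TWS_sums (hRCN : RCN_stmt) {V : Type} [DecidableEq V] (G : SimpleGraph V) (U : Finset V)
    (v : V) (hv : v ∈ U) :
    ∑ S ∈ st G {v} (U.erase v), N G (U.erase v \ S) = N G U ∧
    ∑ S ∈ st G {v} (U.erase v), ((S.card : ℝ) + 1) * N G (U.erase v \ S) =
      N G U + Mk G {v} (U.erase v) 1 ∧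
    ∑ S ∈ st G {v} (U.erase v), ((S.card : ℝ) + 1) ^ 2 * N G (U.erase v \ S) =
      N G U + 3 * Mk G {v} (U.erase v) 1 + Mk G {v} (U.erase v) 2 := by
  have h0 : ∑ S ∈ st G {v} (U.erase v), N G (U.erase v \ S) = N G U := by
    rw [(hRCN V G U v hv).1]
    unfold Mk
    exact Finset.sum_congr rfl (fun S _ => by simp)
  refine ⟨h0, ?_, ?_⟩
  · rw [← h0]
    unfold Mk
    rw [← Finset.sum_add_distrib]
    refine Finset.sum_congr rfl (fun S _ => ?_)
    rw [Nat.descFactorial_one]
    ring
  · rw [← h0]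
    unfold Mk
    rw [Finset.mul_sum, ← Finset.sum_add_distrib, ← Finset.sum_add_distrib]
    refine Finset.sum_congr rfl (fun S _ => ?_)
    have h2 : ((S.card.descFactorial 2 : ℕ) : ℝ) = (S.card : ℝ) * ((S.card : ℝ) - 1) := by
      rcases Nat.eq_zero_or_pos S.card with h | h
      · rw [h]; simp
      · rw [show (2 : ℕ) = 1 + 1 from rfl, Nat.descFactorial_succ, Nat.descFactorial_one]
        rw [Nat.cast_mul, Nat.cast_sub h]
        push_cast
        ring
    rw [Nat.descFactorial_one, h2]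
    ring

theorem TWS (hTWO : TWO_stmt) (hFM2 : FM2_stmt) (hRCN : RCN_stmt) (hSIZ : SIZ_stmt)
    (hSLP : SLP_stmt) (hASY : ASY_stmt) : TWS_stmt := by
  obtain ⟨M1, hM1⟩ := hSLP (1 / 100) (by norm_num)
  obtain ⟨M2, hM2⟩ := hASY (1 / 100) (by norm_num)
  refine ⟨max M1 M2, ?_⟩
  intro m hm V _ G U v w o hcard hv hw hadj hmono homv homw ho
  obtain ⟨a1, -, -, a4, a5, -, -, a8⟩ := hM2 m (le_trans (le_max_right _ _) hm)
  have hsl := hM1 m (le_trans (le_max_left _ _) hm)
  set g : ℝ := gb m with hg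
  set ω : ℝ := om m with hω
  set x : ℝ := xx m with hx
  have hω100 : (100 : ℝ) ≤ ω := by
    have : (1 : ℝ) / (1 / 100) = 100 := by norm_num
    rw [this] at a5
    exact a5
  have hg100 : (100 : ℝ) ≤ g := by
    have h1 : (1 : ℝ) ≤ (1 + ω) ^ 8 := one_le_pow₀ (by linarith)
    linarith
  have hg0 : 0 < g := by linarith
  have hx0 : 0 < x := a8
  have hxω : 99 / 100 ≤ x * ω := by
    have := (abs_le.1 a1).1
    linarith
  have hxω' : x * ω ≤ 101 / 100 := by
    have := (abs_le.1 a1).2
    linarith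
  have hx1 : x ≤ 101 / 10000 := by
    have : x * 100 ≤ x * ω := mul_le_mul_of_nonneg_left hω100 hx0.le
    linarith
  by_cases hfirst : Mk G {v} (U.erase v) 1 ≤ (ω - 1 / (10 * g)) * N G U
  · exact Or.inl hfirst
  right
  rw [not_le] at hfirst
  have hN0 : ∀ A : Finset V, 0 ≤ N G A := fun A => Nat.cast_nonneg _
  obtain ⟨s0, s1, s2⟩ := TWS_sums hRCN G U v hv
  have hRcard : (U.erase v).card = m := by
    rw [Finset.card_erase_of_mem hv, hcard]; rfl
  -- bound of o m
  have hom : o m ≤ ω + 4 / 5 / g := by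
    have := ho m (by omega) le_rfl
    unfold Bf at this
    exact this
  have h45 : 4 / 5 / g ≤ 1 := by
    rw [div_le_one hg0]; linarith
  have hom1 : o m ≤ ω + 1 := by linarith
  have f1 := hFM2 V G {v} (U.erase v) o 0 hmono homv
  have f2 := hFM2 V G {v} (U.erase v) o 1 hmono homv
  rw [hRcard] at f1 f2
  rw [← (hRCN V G U v hv).1] at f1
  simp only [zero_add] at f1
  norm_num at f2
  set M1v := Mk G {v} (U.erase v) 1 with hM1v
  set M2v := Mk G {v} (U.erase v) 2 with hM2v
  have hNU : 0 ≤ N G U := hN0 U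
  have hM1v0 : 0 ≤ M1v := by
    rw [hM1v]
    unfold Mk
    exact Finset.sum_nonneg (fun S _ => mul_nonneg (Nat.cast_nonneg _) (hN0 _))
  have b1 : M1v ≤ (ω + 1) * N G U := f1.trans (mul_le_mul_of_nonneg_right hom1 hNU)
  have b2 : M2v ≤ (ω + 1) ^ 2 * N G U := by
    calc M2v ≤ o m * M1v := f2
      _ ≤ (ω + 1) * M1v := mul_le_mul_of_nonneg_right hom1 hM1v0
      _ ≤ (ω + 1) * ((ω + 1) * N G U) := mul_le_mul_of_nonneg_left b1 (by linarith)
      _ = (ω + 1) ^ 2 * N G U := by ring
  set K : ℝ := (1 + ω) ^ 2 with hK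
  have hK0 : 0 < K := by rw [hK]; positivity
  have hs2 : ∑ S ∈ st G {v} (U.erase v), ((S.card : ℝ) + 1) ^ 2 * N G (U.erase v \ S) ≤
      2 * K * N G U := by
    rw [s2]
    have h1 : 1 + 3 * (ω + 1) + (ω + 1) ^ 2 ≤ 2 * K := by
      rw [hK]
      nlinarith
    calc N G U + 3 * M1v + M2v ≤ N G U + 3 * ((ω + 1) * N G U) + (ω + 1) ^ 2 * N G U := by linarith
      _ = (1 + 3 * (ω + 1) + (ω + 1) ^ 2) * N G U := by ring
      _ ≤ 2 * K * N G U := mul_le_mul_of_nonneg_right h1 hNU
  -- the pointwise bound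
  have hpt : ∀ S ∈ st G {v} (U.erase v), o (U.card - 2 - S.card) ≤
      (ω + 4 / 5 * (101 / 100) / g) -
        99 / 100 * x / g * (((S.card : ℝ) + 1) - ((S.card : ℝ) + 1) ^ 2 / K) := by
    intro S hS
    obtain ⟨c1, -, -⟩ := hSIZ V G U v w hv hw hadj S hS
    have hidx : U.card - 2 - S.card = m - (S.card + 1) := by omega
    rw [hidx]
    have hB0 : 0 ≤ 99 / 100 * x / g := by positivity
    by_cases hi : (((S.card + 1 : ℕ) : ℝ)) ≤ (1 + ω) ^ 2
    · obtain ⟨d1, d2, d3⟩ := hsl (S.card + 1) hi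
      have e1 := ho (m - (S.card + 1)) (by omega) (by omega)
      unfold Bf at e1
      have hgpos : 0 < gb (m - (S.card + 1)) := by
        by_contra hc
        rw [not_lt] at hc
        have : (1 + 1 / 100 : ℝ) * gb (m - (S.card + 1)) ≤ 0 := by nlinarith
        linarith
      have e2 : 4 / 5 / gb (m - (S.card + 1)) ≤ 4 / 5 * (101 / 100) / g := by
        rw [div_le_div_iff₀ hgpos hg0]
        nlinarith
      have e3 : 99 / 100 * x / g * (((S.card : ℝ) + 1) - ((S.card : ℝ) + 1) ^ 2 / K) ≤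
          99 / 100 * x / g * ((S.card : ℝ) + 1) := by
        apply mul_le_mul_of_nonneg_left _ hB0
        have : 0 ≤ ((S.card : ℝ) + 1) ^ 2 / K := by positivity
        linarith
      have e4 : (1 - 1 / 100 : ℝ) * ((S.card + 1 : ℕ) : ℝ) * x / g =
          99 / 100 * x / g * ((S.card : ℝ) + 1) := by
        push_cast
        ring
      rw [e4] at d2
      linarith
    · rw [not_le] at hi
      have e1 : o (m - (S.card + 1)) ≤ o m := hmono (Nat.sub_le _ _)
      have e2 : 4 / 5 / g ≤ 4 / 5 * (101 / 100) / g := by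
        apply div_le_div_of_nonneg_right _ hg0.le
        norm_num
      have e3 : ((S.card : ℝ) + 1) - ((S.card : ℝ) + 1) ^ 2 / K ≤ 0 := by
        have h1 : K < (S.card : ℝ) + 1 := by
          have := hi
          push_cast at this
          exact this
        have h2 : 0 < (S.card : ℝ) + 1 := by positivity
        rw [sub_nonpos, le_div_iff₀ hK0]
        nlinarith
      have e4 : 99 / 100 * x / g * (((S.card : ℝ) + 1) - ((S.card : ℝ) + 1) ^ 2 / K) ≤ 0 :=
        mul_nonpos_of_nonneg_of_nonpos hB0 e3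
      linarith
  have htwo := hTWO V G U v w o hv hw hadj hmono homw
  have hsum : ∑ S ∈ st G {v} (U.erase v), o (U.card - 2 - S.card) * N G (U.erase v \ S) ≤
      (ω + 4 / 5 * (101 / 100) / g) * N G U - 99 / 100 * x / g * (M1v - N G U) := by
    calc ∑ S ∈ st G {v} (U.erase v), o (U.card - 2 - S.card) * N G (U.erase v \ S)
        ≤ ∑ S ∈ st G {v} (U.erase v), ((ω + 4 / 5 * (101 / 100) / g) -
          99 / 100 * x / g * (((S.card : ℝ) + 1) - ((S.card : ℝ) + 1) ^ 2 / K)) *
            N G (U.erase v \ S) :=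
          Finset.sum_le_sum (fun S hS => mul_le_mul_of_nonneg_right (hpt S hS) (hN0 _))
      _ = (ω + 4 / 5 * (101 / 100) / g) * ∑ S ∈ st G {v} (U.erase v), N G (U.erase v \ S) -
          99 / 100 * x / g * (∑ S ∈ st G {v} (U.erase v), ((S.card : ℝ) + 1) * N G (U.erase v \ S) -
            (∑ S ∈ st G {v} (U.erase v), ((S.card : ℝ) + 1) ^ 2 * N G (U.erase v \ S)) / K) := by
          rw [Finset.mul_sum, Finset.sum_div, ← Finset.sum_sub_distrib, Finset.mul_sum,
            ← Finset.sum_sub_distrib]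
          refine Finset.sum_congr rfl (fun S _ => ?_)
          ring
      _ ≤ _ := by
          rw [s0, s1]
          have h1 : (∑ S ∈ st G {v} (U.erase v), ((S.card : ℝ) + 1) ^ 2 * N G (U.erase v \ S)) / K ≤
              2 * N G U := by
            rw [div_le_iff₀ hK0]
            linarith
          have hB0 : 0 ≤ 99 / 100 * x / g := by positivity
          have h2 : 99 / 100 * x / g * (M1v - N G U) ≤ 99 / 100 * x / g *
              (N G U + M1v - (∑ S ∈ st G {v} (U.erase v),
                ((S.card : ℝ) + 1) ^ 2 * N G (U.erase v \ S)) / K) := by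
            apply mul_le_mul_of_nonneg_left _ hB0
            linarith
          linarith
  have hM1low : (ω - 2) * N G U ≤ M1v - N G U := by
    have h1 : 1 / (10 * g) ≤ 1 := by
      rw [div_le_one (by positivity)]
      linarith
    have h2 : (ω - 1) * N G U ≤ (ω - 1 / (10 * g)) * N G U :=
      mul_le_mul_of_nonneg_right (by linarith) hNU
    linarith
  have hB0 : 0 ≤ 99 / 100 * x / g := by positivity
  have hfin1 : 99 / 100 * x / g * ((ω - 2) * N G U) ≤ 99 / 100 * x / g * (M1v - N G U) :=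
    mul_le_mul_of_nonneg_left hM1low hB0
  have hfin2 : 95 / 100 / g ≤ 99 / 100 * x / g * (ω - 2) := by
    rw [show 99 / 100 * x / g * (ω - 2) = (99 / 100 * (x * ω - 2 * x)) / g by ring]
    apply div_le_div_of_nonneg_right _ hg0.le
    linarith
  have hfin3 : 95 / 100 / g * N G U ≤ 99 / 100 * x / g * ((ω - 2) * N G U) := by
    have := mul_le_mul_of_nonneg_right hfin2 hNU
    linarith [mul_assoc (99 / 100 * x / g) (ω - 2) (N G U)]
  have hfin4 : (ω + 4 / 5 * (101 / 100) / g) * N G U - 95 / 100 / g * N G U ≤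
      (ω - 1 / (10 * g)) * N G U := by
    have h1 : (ω + 4 / 5 * (101 / 100) / g) - 95 / 100 / g ≤ ω - 1 / (10 * g) := by
      have h2 : 1 / (10 * g) = (1 / 10) / g := by
        field_simp
      rw [h2]
      have h3 : (4 / 5 * (101 / 100) + 1 / 10) / g ≤ 95 / 100 / g := by
        apply div_le_div_of_nonneg_right _ hg0.le
        norm_num
      rw [add_div] at h3
      linarith
    have := mul_le_mul_of_nonneg_right h1 hNU
    linarith
  linarith

end Pool.Agent.helper34.AC
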